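import Mathlib

set_option autoImplicit false

namespace Pool.Agent.Results.MP_efc620_co.Gem

open Finset Polynomial SimpleGraph

variable {V : Type} [Fintype V] [DecidableEq V]

/-- Number of cycles of a permutation, fixed points included. -/
def cyc (σ : Equiv.Perm V) : ℕ := #(univ.image fun v => univ.filter (σ.SameCycle v))

/-- Permutations with `k` cycles moving every vertex to a neighbour or fixing it. -/
def stir (G : SimpleGraph V) [DecidableRel G.Adj] (k : ℕ) : ℕ :=
  #{σ : Equiv.Perm V | cyc σ = k ∧ ∀ v, σ v ≠ v → G.Adj v (σ v)}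

/-- The graphical cycle polynomial. -/
noncomputable def poly (G : SimpleGraph V) [DecidableRel G.Adj] : ℂ[X] :=
  ∑ k ∈ Icc 1 (Fintype.card V), C (stir G k : ℂ) * X ^ k

/-- Every cycle of length at least four has a chord. -/
def Chordal (G : SimpleGraph V) : Prop :=
  ∀ k, 4 ≤ k → ∀ f : Fin k → V, f.Injective →
    (∀ i j, (cycleGraph k).Adj i j → G.Adj (f i) (f j)) →
    ∃ i j, ¬(cycleGraph k).Adj i j ∧ G.Adj (f i) (f j)

def gem : SimpleGraph (Fin 5) := .fromRel fun a b => a = 4 ∨ a + 1 = b ∧ b ≠ 4

instance : DecidableRel gem.Adj := fun a b => by unfold gem; infer_instance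

/-- The gem is chordal and its cycle polynomial has a non-real root. -/
theorem result : ∃ (n : ℕ) (G : SimpleGraph (Fin (n + 1))) (_ : DecidableRel G.Adj),
    Chordal G ∧ ∃ z : ℂ, (poly G).IsRoot z ∧ z.im ≠ 0 := by
  refine ⟨4, gem, inferInstance, fun k hk f hf => ?_, ?_⟩
  · have : k ≤ 5 := by simpa using Fintype.card_le_of_injective f hf
    interval_cases k <;> revert f <;> decide +kernel
  have s : (List.range 6).map (stir gem) = [0, 2, 8, 13, 7, 1] := by decide +kernel
  simp only [List.range, List.range.loop, List.map, List.cons.injEq] at s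
  obtain ⟨-, s1, s2, s3, s4, s5, -⟩ := s
  let q : ℂ[X] := X ^ 4 + 7 * X ^ 3 + 13 * X ^ 2 + 8 * X + 2
  have e : ∀ z, (poly gem).eval z = z * q.eval z := fun z => by
    have : Icc 1 (Fintype.card (Fin 5)) = {1, 2, 3, 4, 5} := by decide
    rw [poly, this]
    simp [s1, s2, s3, s4, s5, q]
    ring
  by_contra! h
  have m : q.Monic := by unfold q; monicity!
  have d : q.natDegree = 4 := by unfold q; compute_degree!
  have sp := IsAlgClosed.splits q
  have c := sp.natDegree_eq_card_roots
  obtain ⟨a, b, c, d, r⟩ := Multiset.card_eq_four.1 (c.symm.trans d)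
  have i : ∀ z ∈ q.roots, z = z.re := fun z hz => by
    have := h z (by rw [IsRoot, e, (isRoot_of_mem_roots hz).eq_zero, mul_zero])
    exact Complex.ext rfl this
  have p : ∀ t : ℝ, t ^ 4 + 7 * t ^ 3 + 13 * t ^ 2 + 8 * t + 2
      = (t - a.re) * ((t - b.re) * ((t - c.re) * (t - d.re))) := fun t => by
    have := congrArg (eval (t : ℂ)) (sp.eq_prod_roots_of_monic m)
    rw [r] at this i
    rw [i a (by simp), i b (by simp), i c (by simp), i d (by simp)] at this
    simp [q] at this
    apply Complex.ofReal_injective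
    push_cast
    exact this
  generalize a.re = a, b.re = b, c.re = c, d.re = d at p
  have e4 : a * b * c * d = 2 := by linarith [p 0]
  have e2 : a * b + a * c + a * d + b * c + b * d + c * d = 13 := by linarith [p 0, p 1, p (-1)]
  have e3 : a * b * c + a * b * d + a * c * d + b * c * d = -8 := by
    linarith [p 0, p 1, p (-1), p 2, p (-2)]
  nlinarith [sq_nonneg (a * b * c + 2), sq_nonneg (a * b * d + 2), sq_nonneg (a * c * d + 2),
    sq_nonneg (b * c * d + 2), congrArg (· ^ 2) e3, congrArg₂ (· * ·) e2 e4]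

end Pool.Agent.Results.MP_efc620_co.Gem
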